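import Mathlib
import Pool.Agent.helper14.Kus3.NumDefs

/-!
# Kusner's question, N3: arcs of the unit circle
-/

set_option autoImplicit false

namespace Kusner.Num.P

open Real

theorem arcs_cq (τ : ℚ) : ((cq τ : ℚ) : ℝ) = Real.cos (2 * Real.arctan τ) := by
  have h : (0:ℝ) < 1 + (τ : ℝ) ^ 2 := by positivity
  rw [Real.cos_two_mul, Real.cos_sq_arctan, cq]
  push_cast
  field_simp
  ring

theorem arcs_sq (τ : ℚ) : ((sq τ : ℚ) : ℝ) = Real.sin (2 * Real.arctan τ) := by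
  have h : (0:ℝ) < 1 + (τ : ℝ) ^ 2 := by positivity
  have h1 : Real.sin (Real.arctan τ) = (τ : ℝ) * Real.cos (Real.arctan τ) := by
    rw [Real.sin_arctan, Real.cos_arctan]
    ring
  rw [Real.sin_two_mul, h1, sq]
  have h2 := Real.cos_sq_arctan (τ : ℝ)
  have h3 : 2 * ((τ : ℝ) * Real.cos (Real.arctan τ)) * Real.cos (Real.arctan τ) =
      2 * (τ : ℝ) * Real.cos (Real.arctan τ) ^ 2 := by ring
  rw [h3, h2]
  push_cast
  ring

/-- the half length of the arc -/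
theorem arcs_half {τ0 τ1 : ℚ} (h : τ0 < τ1) (h' : 0 < 1 + τ0 * τ1) :
    0 < (((τ1 - τ0) / (1 + τ0 * τ1) : ℚ) : ℝ) ∧
      Real.arctan τ1 = Real.arctan τ0 + Real.arctan (((τ1 - τ0) / (1 + τ0 * τ1) : ℚ) : ℝ) := by
  have h1 : (0:ℝ) < 1 + (τ0 : ℝ) * τ1 := by exact_mod_cast h'
  have h2 : (0:ℝ) < (τ1 : ℝ) - τ0 := by
    have : (τ0 : ℝ) < τ1 := by exact_mod_cast h
    linarith
  have h3 : (((τ1 - τ0) / (1 + τ0 * τ1) : ℚ) : ℝ) = ((τ1 : ℝ) - τ0) / (1 + τ0 * τ1) := by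
    push_cast
    ring
  rw [h3]
  refine ⟨div_pos h2 h1, ?_⟩
  have h4 : (τ0 : ℝ) * (((τ1 : ℝ) - τ0) / (1 + τ0 * τ1)) < 1 := by
    rw [mul_div_assoc', div_lt_one h1]
    nlinarith [sq_nonneg (τ0 : ℝ)]
  rw [Real.arctan_add h4]
  congr 1
  have h5 : 1 - (τ0 : ℝ) * (((τ1 : ℝ) - τ0) / (1 + τ0 * τ1)) = (1 + (τ0 : ℝ) ^ 2) / (1 + τ0 * τ1) := by
    field_simp
    ring
  have h6 : (0:ℝ) < 1 + (τ0 : ℝ) ^ 2 := by positivity
  have h7 : (τ0 : ℝ) + ((τ1 : ℝ) - τ0) / (1 + τ0 * τ1) =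
      τ1 * ((1 + (τ0 : ℝ) ^ 2) / (1 + τ0 * τ1)) := by
    field_simp
    ring
  rw [h5, h7, mul_div_assoc, div_self (div_pos h6 h1).ne', mul_one]

/-- the coefficients of a point of the arc -/
theorem arcs_coef {τ0 τ1 : ℚ} (h : τ0 < τ1) (h' : 0 < 1 + τ0 * τ1) {θ : ℝ}
    (hθ : 2 * Real.arctan τ0 ≤ θ) (hθ' : θ ≤ 2 * Real.arctan τ1) :
    ∃ l m : ℝ, 0 ≤ l ∧ 0 ≤ m ∧ 1 ≤ l + m ∧ l + m ≤ (kap τ0 τ1 : ℚ) ∧
      Real.cos θ = l * (cq τ0 : ℚ) + m * (cq τ1 : ℚ) ∧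
      Real.sin θ = l * (sq τ0 : ℚ) + m * (sq τ1 : ℚ) := by
  obtain ⟨hx0, hx⟩ := arcs_half h h'
  set x : ℝ := (((τ1 - τ0) / (1 + τ0 * τ1) : ℚ) : ℝ) with hxdef
  set δ : ℝ := Real.arctan x with hδ
  set a : ℝ := Real.arctan τ0 with ha
  have hb : Real.arctan τ1 = a + δ := hx
  have hδ0 : 0 < δ := Real.arctan_pos.2 hx0
  have hδ1 : δ < Real.pi / 2 := Real.arctan_lt_pi_div_two x
  have hs : 0 < Real.sin δ := Real.sin_pos_of_pos_of_lt_pi hδ0 (by linarith)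
  have hc : 0 < Real.cos δ := Real.cos_pos_of_mem_Ioo ⟨by linarith, hδ1⟩
  have hD : 0 < Real.sin (2 * δ) := Real.sin_pos_of_pos_of_lt_pi (by linarith) (by linarith)
  rw [hb] at hθ'
  have e0 : ((cq τ0 : ℚ) : ℝ) = Real.cos (2 * a) := arcs_cq τ0
  have e0' : ((sq τ0 : ℚ) : ℝ) = Real.sin (2 * a) := arcs_sq τ0
  have e1 : ((cq τ1 : ℚ) : ℝ) = Real.cos (2 * (a + δ)) := by rw [← hb]; exact arcs_cq τ1
  have e1' : ((sq τ1 : ℚ) : ℝ) = Real.sin (2 * (a + δ)) := by rw [← hb]; exact arcs_sq τ1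
  have hl : 0 ≤ Real.sin (2 * (a + δ) - θ) :=
    Real.sin_nonneg_of_nonneg_of_le_pi (by linarith) (by linarith)
  have hm : 0 ≤ Real.sin (θ - 2 * a) :=
    Real.sin_nonneg_of_nonneg_of_le_pi (by linarith) (by linarith)
  -- the sum of the coefficients
  have hsum : Real.sin (2 * (a + δ) - θ) + Real.sin (θ - 2 * a) =
      2 * Real.sin δ * Real.cos (2 * a + δ - θ) := by
    have gen : ∀ p q : ℝ, Real.sin (p + q) + Real.sin (p - q) = 2 * Real.sin p * Real.cos q := by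
      intro p q
      rw [Real.sin_add, Real.sin_sub]
      ring
    rw [← gen]
    congr 2 <;> ring
  have hs2 : Real.sin (2 * δ) = 2 * Real.sin δ * Real.cos δ := Real.sin_two_mul δ
  have hcos : Real.cos δ ≤ Real.cos (2 * a + δ - θ) := by
    rw [← Real.cos_abs (2 * a + δ - θ)]
    apply Real.cos_le_cos_of_nonneg_of_le_pi (abs_nonneg _) (by linarith)
    rw [abs_le]
    constructor <;> linarith
  have hcos1 : Real.cos (2 * a + δ - θ) ≤ 1 := Real.cos_le_one _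
  have hlm : Real.sin (2 * (a + δ) - θ) / Real.sin (2 * δ) + Real.sin (θ - 2 * a) / Real.sin (2 * δ) =
      Real.cos (2 * a + δ - θ) / Real.cos δ := by
    rw [← add_div, hsum, hs2]
    field_simp
  have hkap : ((kap τ0 τ1 : ℚ) : ℝ) = (1 / Real.cos δ ^ 2 + 1) / 2 := by
    have e4 : Real.cos (2 * a) * Real.cos (2 * (a + δ)) + Real.sin (2 * a) * Real.sin (2 * (a + δ)) =
        2 * Real.cos δ ^ 2 - 1 := by
      rw [← Real.cos_two_mul, ← Real.cos_sub, ← Real.cos_neg]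
      congr 1
      ring
    rw [kap]
    push_cast
    rw [e0, e0', e1, e1', e4]
    field_simp
    ring
  refine ⟨Real.sin (2 * (a + δ) - θ) / Real.sin (2 * δ), Real.sin (θ - 2 * a) / Real.sin (2 * δ),
    div_nonneg hl hD.le, div_nonneg hm hD.le, ?_, ?_, ?_, ?_⟩
  · rw [hlm, le_div_iff₀ hc, one_mul]
    exact hcos
  · rw [hlm, hkap]
    have h1 : Real.cos (2 * a + δ - θ) / Real.cos δ ≤ 1 / Real.cos δ :=
      div_le_div_of_nonneg_right hcos1 hc.le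
    have h2 : 1 / Real.cos δ ^ 2 = (1 / Real.cos δ) ^ 2 := by
      rw [div_pow, one_pow]
    rw [h2]
    nlinarith [sq_nonneg (1 / Real.cos δ - 1)]
  · rw [e0, e1]
    have key : Real.sin (2 * (a + δ) - θ) * Real.cos (2 * a) + Real.sin (θ - 2 * a) *
        Real.cos (2 * (a + δ)) = Real.cos θ * Real.sin (2 * δ) := by
      have e5 : 2 * δ = 2 * (a + δ) - 2 * a := by ring
      rw [e5, Real.sin_sub, Real.sin_sub, Real.sin_sub]
      ring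
    rw [div_mul_eq_mul_div, div_mul_eq_mul_div, ← add_div, key, mul_div_assoc, div_self hD.ne', mul_one]
  · rw [e0', e1']
    have key : Real.sin (2 * (a + δ) - θ) * Real.sin (2 * a) + Real.sin (θ - 2 * a) *
        Real.sin (2 * (a + δ)) = Real.sin θ * Real.sin (2 * δ) := by
      have e5 : 2 * δ = 2 * (a + δ) - 2 * a := by ring
      rw [e5, Real.sin_sub, Real.sin_sub, Real.sin_sub]
      ring
    rw [div_mul_eq_mul_div, div_mul_eq_mul_div, ← add_div, key, mul_div_assoc, div_self hD.ne', mul_one]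

theorem arc_lower {τ0 τ1 : ℚ} (h : τ0 < τ1) (h' : 0 < 1 + τ0 * τ1) {θ : ℝ}
    (hθ : 2 * Real.arctan τ0 ≤ θ) (hθ' : θ ≤ 2 * Real.arctan τ1) {b1 b2 m : ℝ}
    (h0 : m ≤ b1 * (cq τ0 : ℚ) + b2 * (sq τ0 : ℚ)) (h1 : m ≤ b1 * (cq τ1 : ℚ) + b2 * (sq τ1 : ℚ)) :
    (if 0 ≤ m then m else (kap τ0 τ1 : ℚ) * m) ≤ b1 * Real.cos θ + b2 * Real.sin θ := by
  obtain ⟨l, k, hl, hk, hlk, hlk', hcos, hsin⟩ := arcs_coef h h' hθ hθ'
  have h2 : (l + k) * m ≤ b1 * Real.cos θ + b2 * Real.sin θ := by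
    rw [hcos, hsin]
    nlinarith [mul_le_mul_of_nonneg_left h0 hl, mul_le_mul_of_nonneg_left h1 hk]
  split_ifs with hm
  · nlinarith
  · push Not at hm
    nlinarith

theorem arc_upper {τ0 τ1 : ℚ} (h : τ0 < τ1) (h' : 0 < 1 + τ0 * τ1) {θ : ℝ}
    (hθ : 2 * Real.arctan τ0 ≤ θ) (hθ' : θ ≤ 2 * Real.arctan τ1) {b1 b2 m : ℝ}
    (h0 : b1 * (cq τ0 : ℚ) + b2 * (sq τ0 : ℚ) ≤ m) (h1 : b1 * (cq τ1 : ℚ) + b2 * (sq τ1 : ℚ) ≤ m) :
    b1 * Real.cos θ + b2 * Real.sin θ ≤ (if m ≤ 0 then m else (kap τ0 τ1 : ℚ) * m) := by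
  have h2 := arc_lower h h' hθ hθ' (b1 := -b1) (b2 := -b2) (m := -m) (by linarith) (by linarith)
  by_cases hm : m ≤ 0
  · rw [if_pos (by linarith)] at h2
    rw [if_pos hm]
    linarith
  · rw [if_neg (by push Not at hm ⊢; linarith)] at h2
    rw [if_neg hm]
    linarith

theorem arcs_arctan_le {x : ℝ} (hx : 0 ≤ x) : Real.arctan x ≤ x - x ^ 3 / 3 + x ^ 5 / 5 := by
  have hd : ∀ y : ℝ, HasDerivAt (fun x : ℝ => x - x ^ 3 / 3 + x ^ 5 / 5 - Real.arctan x)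
      (1 - (3 * y ^ 2) / 3 + (5 * y ^ 4) / 5 - 1 / (1 + y ^ 2)) y := by
    intro y
    have h1 := (((hasDerivAt_id y).sub ((hasDerivAt_pow 3 y).div_const 3)).add
      ((hasDerivAt_pow 5 y).div_const 5)).sub (Real.hasDerivAt_arctan y)
    refine h1.congr_deriv ?_
    norm_num
  have hmono : MonotoneOn (fun x : ℝ => x - x ^ 3 / 3 + x ^ 5 / 5 - Real.arctan x) (Set.Ici 0) := by
    apply monotoneOn_of_deriv_nonneg (convex_Ici 0)
    · exact fun y _ => (hd y).continuousAt.continuousWithinAt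
    · exact fun y _ => (hd y).differentiableAt.differentiableWithinAt
    · intro y hy
      rw [(hd y).deriv]
      have h2 : 0 < 1 + y ^ 2 := by positivity
      have h3 : 1 - (3 * y ^ 2) / 3 + (5 * y ^ 4) / 5 - 1 / (1 + y ^ 2) = y ^ 6 / (1 + y ^ 2) := by
        field_simp
        ring
      rw [h3]
      positivity
  have h0 := hmono (Set.mem_Ici.2 le_rfl) (Set.mem_Ici.2 hx) hx
  simp only [Real.arctan_zero] at h0
  norm_num at h0
  linarith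

theorem arcs_le_arctan {x : ℝ} (hx : 0 ≤ x) : x - x ^ 3 / 3 ≤ Real.arctan x := by
  have hd : ∀ y : ℝ, HasDerivAt (fun x : ℝ => Real.arctan x - (x - x ^ 3 / 3))
      (1 / (1 + y ^ 2) - (1 - (3 * y ^ 2) / 3)) y := by
    intro y
    have h1 := (Real.hasDerivAt_arctan y).sub ((hasDerivAt_id y).sub
      ((hasDerivAt_pow 3 y).div_const 3))
    refine h1.congr_deriv ?_
    norm_num
  have hmono : MonotoneOn (fun x : ℝ => Real.arctan x - (x - x ^ 3 / 3)) (Set.Ici 0) := by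
    apply monotoneOn_of_deriv_nonneg (convex_Ici 0)
    · exact fun y _ => (hd y).continuousAt.continuousWithinAt
    · exact fun y _ => (hd y).differentiableAt.differentiableWithinAt
    · intro y hy
      rw [(hd y).deriv]
      have h2 : 0 < 1 + y ^ 2 := by positivity
      have h3 : 1 / (1 + y ^ 2) - (1 - (3 * y ^ 2) / 3) = y ^ 4 / (1 + y ^ 2) := by
        field_simp
        ring
      rw [h3]
      positivity
  have h0 := hmono (Set.mem_Ici.2 le_rfl) (Set.mem_Ici.2 hx) hx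
  simp only [Real.arctan_zero] at h0
  norm_num at h0
  linarith

theorem arc_len_le {τ0 τ1 : ℚ} (h : τ0 < τ1) (h' : 0 < 1 + τ0 * τ1) :
    2 * Real.arctan τ1 - 2 * Real.arctan τ0 ≤ (arcHi τ0 τ1 : ℚ) := by
  obtain ⟨hx0, hx⟩ := arcs_half h h'
  have h1 := arcs_arctan_le hx0.le
  have h2 : ((arcHi τ0 τ1 : ℚ) : ℝ) = 2 * ((((τ1 - τ0) / (1 + τ0 * τ1) : ℚ) : ℝ) -
      (((τ1 - τ0) / (1 + τ0 * τ1) : ℚ) : ℝ) ^ 3 / 3 +
      (((τ1 - τ0) / (1 + τ0 * τ1) : ℚ) : ℝ) ^ 5 / 5) := by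
    simp only [arcHi]
    push_cast
    ring
  rw [h2]
  linarith

theorem le_arc_len {τ0 τ1 : ℚ} (h : τ0 < τ1) (h' : 0 < 1 + τ0 * τ1) :
    ((arcLo τ0 τ1 : ℚ) : ℝ) ≤ 2 * Real.arctan τ1 - 2 * Real.arctan τ0 := by
  obtain ⟨hx0, hx⟩ := arcs_half h h'
  have h1 := arcs_le_arctan hx0.le
  have h2 : ((arcLo τ0 τ1 : ℚ) : ℝ) = 2 * ((((τ1 - τ0) / (1 + τ0 * τ1) : ℚ) : ℝ) -
      (((τ1 - τ0) / (1 + τ0 * τ1) : ℚ) : ℝ) ^ 3 / 3) := by
    simp only [arcLo]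
    push_cast
    ring
  rw [h2]
  linarith

end Kusner.Num.P
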